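import Pool.Agent.Helper28.HN.Cls
import Pool.Agent.Helper28.HN.Upper2
import Pool.Agent.Helper28.HN.Dir2
import Pool.Agent.Helper22.HE.Fin

/-!
MP_143e28_ag, `p = 2`: assembly (helper22, helper28); tame indecomposable maps of bounded degree in characteristic 2 (on top of
project HN of helper28).
-/

set_option autoImplicit false

namespace Pool.Agent.Helper22.HF

open Polynomial Pool.Agent.Helper28.HA Pool.Agent.Helper22.HB Pool.Agent.Helper54.HZ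
  Pool.Agent.Helper22.HE Pool.Agent.Helper28.HN

theorem lower2.{u} (k : Type u) [Field k] [IsAlgClosed k] [CharP k 2] {g : ℕ} (hg : 2 ≤ g)
    (S : Set ℕ) (hS : 2 ∈ S) (N : ℕ) : ((4 * g + 2 : ℕ) : ℕ∞) ≤ muPrm k 2 S N g := by
  refine (lowerC k hg S hS).trans ?_
  unfold muCov muPrm
  refine sSup_le_sSup ?_
  rintro n ⟨F, i1, i2, hF, rfl⟩
  exact ⟨F, i1, i2, Or.inl hF, rfl⟩

/-- the special genera are `903 l` -/
def SpN (N l : ℕ) : Prop :=
  Sp l ∧ N ^ 2 * (1 + 3 * (12642 + 2 * N) + 2 * (12642 + 2 * N) ^ 2) < 903 * l ∧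
    ∀ n : ℕ, 2 ≤ n → n ≤ N → ∀ e v : ℕ, v < n → 2 ^ e ∣ 2 * (903 * l) + 2 * n - 2 - v →
      2 ^ e ≤ 12642 + 2 * N

theorem inf_spN (N : ℕ) : {l : ℕ | SpN N l}.Infinite := by
  rw [Set.infinite_iff_exists_gt]
  intro M
  obtain ⟨l, h1, h2, h3⟩ := specialD2 N
    (max M (N ^ 2 * (1 + 3 * (12642 + 2 * N) + 2 * (12642 + 2 * N) ^ 2)))
  have h4 := lt_of_le_of_lt (le_max_right _ _) h1
  exact ⟨l, ⟨h2, by omega, h3⟩, lt_of_le_of_lt (le_max_left _ _) h1⟩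

theorem exact2.{u} (k : Type u) [Field k] [IsAlgClosed k] [CharP k 2] {N l : ℕ}
    (hl : SpN N l) (S : Set ℕ) (hS : 2 ∈ S) :
    muPrm k 2 S N (903 * l) = ((4 * (903 * l) + 2 : ℕ) : ℕ∞) := by
  refine le_antisymm ?_ (lower2 k (by have := hl.1.2.2.2.2.2.2; omega) S hS N)
  unfold muPrm
  refine sSup_le ?_
  rintro n ⟨F, _, _, hF, rfl⟩
  have h1 : Finite (F ≃ₐ[k] F) ∧ Nat.card (F ≃ₐ[k] F) ≤ 4 * (903 * l) + 2 := by
    obtain ⟨h1, h2, h3⟩ := hl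
    rcases hF with (⟨n, -, x, y, f, hF⟩ | ⟨-, x, y, f, hF⟩) | ⟨n, -, hn, x, hF⟩
    · exact upperN2 h1 hF
    · exact upperAS2 h1 hF
    · refine d_upper2 h1 (h3 n hF.two hn) ?_ hF
      refine lt_of_le_of_lt ?_ h2
      exact Nat.mul_le_mul_right _ (Nat.pow_le_pow_left hn 2)
  obtain ⟨ha, hb⟩ := h1
  rw [ENat.card_eq_coe_natCard]
  exact_mod_cast hb

theorem main2.{u} (k : Type u) [Field k] [IsAlgClosed k] [CharP k 2] (S : Set ℕ) (hS : 2 ∈ S)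
    (N : ℕ) (M : ℚ[X]) :
    ((∀ g : ℕ, 2 ≤ g → ∀ m : ℕ, muPrm k 2 S N g = m → M.eval (g : ℚ) ≤ m) ∧
      {g : ℕ | 2 ≤ g ∧ ∃ m : ℕ, muPrm k 2 S N g = m ∧ M.eval (g : ℚ) = m}.Infinite) ↔
    M = C 4 * X + C 2 := by
  have hsp : {g : ℕ | 2 ≤ g ∧ muPrm k 2 S N g = ((4 * g + 2 : ℕ) : ℕ∞)}.Infinite := by
    have h2 : (fun l : ℕ => 903 * l) '' {l : ℕ | SpN N l} ⊆
        {g : ℕ | 2 ≤ g ∧ muPrm k 2 S N g = ((4 * g + 2 : ℕ) : ℕ∞)} := by
      rintro _ ⟨l, hl, rfl⟩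
      exact ⟨by have := hl.1.2.2.2.2.2.2; dsimp only; omega, exact2 k hl S hS⟩
    refine Set.Infinite.mono h2 ((inf_spN N).image ?_)
    intro a _ b _ hab
    dsimp only at hab
    omega
  constructor
  · rintro ⟨hM1, hM2⟩
    by_contra hne
    refine sign_aux (M - (C 4 * X + C 2)) (sub_ne_zero.mpr hne) _ _ hsp hM2 ?_ ?_
    · rintro g ⟨h1, h2⟩
      have e1 := hM1 g h1 (4 * g + 2) h2
      rw [eval_sub, eval_add, eval_mul, eval_C, eval_X, eval_C]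
      push_cast at e1
      linarith
    · rintro g ⟨hg, m, hm, hM⟩
      have e1 := lower2 k hg S hS N
      rw [hm] at e1
      have e2 : 4 * g + 2 ≤ m := by exact_mod_cast e1
      have e3 : ((4 * g + 2 : ℕ) : ℚ) ≤ m := by exact_mod_cast e2
      push_cast at e3
      rw [eval_sub, eval_add, eval_mul, eval_C, eval_X, eval_C, hM]
      linarith
  · rintro rfl
    refine ⟨?_, ?_⟩
    · intro g hg m hm
      have e1 := lower2 k hg S hS N
      rw [hm] at e1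
      have e2 : 4 * g + 2 ≤ m := by exact_mod_cast e1
      have e3 : ((4 * g + 2 : ℕ) : ℚ) ≤ m := by exact_mod_cast e2
      push_cast at e3
      rw [eval_add, eval_mul, eval_C, eval_X, eval_C]
      exact e3
    · refine hsp.mono ?_
      rintro g ⟨h1, h2⟩
      refine ⟨h1, 4 * g + 2, h2, ?_⟩
      rw [eval_add, eval_mul, eval_C, eval_X, eval_C]
      push_cast
      ring

end Pool.Agent.Helper22.HF
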